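import Pool.Agent.LibSphere41.GNS

/-!
Elementary approach to positive definite functions on spheres: realisation in a Hilbert space,
averages of vectors with almost constant inner products, passage to punctured limits.
-/

open scoped RealInnerProductSpace
open Set Filter Topology

namespace SphEl41

open Sph41 (PDK Hil vec inner_vec)

/-- The unit sphere as a type. -/
abbrev Sp (E : Type*) [NormedAddCommGroup E] := {x : E // ‖x‖ = 1}

/-- `f` is positive definite on the unit sphere of `E`. -/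
def PD (E : Type*) [NormedAddCommGroup E] [InnerProductSpace ℝ E] (f : ℝ → ℝ) : Prop :=
  ∀ (m : ℕ) (x : Fin m → E), (∀ i, ‖x i‖ = 1) →
    (Matrix.of fun i j => f ⟪x i, x j⟫ : Matrix (Fin m) (Fin m) ℝ).PosSemidef

section

variable {E : Type*} [NormedAddCommGroup E] [InnerProductSpace ℝ E]

/-- The kernel of a positive definite function. -/
def kerOf {f : ℝ → ℝ} (hf : PD E f) : PDK (Sp E) where
  k x y := f ⟪(x : E), (y : E)⟫
  symm x y := by rw [real_inner_comm]
  nonneg s := by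
    set q : Fin s.support.card ≃ s.support := s.support.equivFin.symm with hq
    have h := (hf s.support.card (fun i => ((q i : Sp E) : E)) (fun i => (q i : Sp E).2)).2
      (Finsupp.equivFunOnFinite.symm (fun i => s (q i : Sp E)))
    rw [Finsupp.sum_fintype _ _ (by intro i; simp)] at h
    have h2 : s.sum (fun x a => s.sum fun y b => a * b * f ⟪(x : E), (y : E)⟫)
        = ∑ i, ∑ j, s (q i : Sp E) * s (q j : Sp E)
          * f ⟪((q i : Sp E) : E), ((q j : Sp E) : E)⟫ := by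
      unfold Finsupp.sum
      rw [← Finset.sum_coe_sort, ← Equiv.sum_comp q]
      apply Finset.sum_congr rfl
      intro i _
      beta_reduce
      rw [← Finset.sum_coe_sort s.support, ← Equiv.sum_comp q]
    rw [h2]
    refine le_of_le_of_eq h ?_
    apply Finset.sum_congr rfl
    intro i _
    rw [Finsupp.sum_fintype _ _ (by intro i; simp)]
    apply Finset.sum_congr rfl
    intro j _
    simp only [Finsupp.equivFunOnFinite_symm_apply_apply, Matrix.of_apply, star_trivial]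
    ring

/-- Vectors realising the function. -/
noncomputable def rv {f : ℝ → ℝ} (hf : PD E f) (x : E) : Hil (kerOf hf) := by
  classical exact if hx : ‖x‖ = 1 then vec (kerOf hf) ⟨x, hx⟩ else 0

theorem rv_inner {f : ℝ → ℝ} (hf : PD E f) {x y : E} (hx : ‖x‖ = 1) (hy : ‖y‖ = 1) :
    ⟪rv hf x, rv hf y⟫ = f ⟪x, y⟫ := by
  unfold rv
  rw [dif_pos hx, dif_pos hy, inner_vec]
  rfl

theorem PD_of_quad {g : ℝ → ℝ} (h : ∀ (m : ℕ) (x : Fin m → E) (c : Fin m → ℝ),
    (∀ i, ‖x i‖ = 1) → 0 ≤ ∑ i, ∑ j, c i * c j * g ⟪x i, x j⟫) : PD E g := by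
  intro m x hx
  refine ⟨?_, fun c => ?_⟩
  · ext i j
    simp only [Matrix.conjTranspose_apply, Matrix.of_apply, star_trivial]
    rw [real_inner_comm]
  · have h1 := h m x (fun i => c i) hx
    rw [Finsupp.sum_fintype _ _ (by intro i; simp)]
    refine le_of_le_of_eq h1 ?_
    apply Finset.sum_congr rfl
    intro i _
    rw [Finsupp.sum_fintype _ _ (by intro i; simp)]
    apply Finset.sum_congr rfl
    intro j _
    simp only [Matrix.of_apply, star_trivial]
    ring

end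

section avg

variable {H : Type*} [NormedAddCommGroup H] [InnerProductSpace ℝ H]

/-- The average of the first `N` vectors. -/
noncomputable def av (N : ℕ) (w : ℕ → H) : H := (N : ℝ)⁻¹ • ∑ i ∈ Finset.range N, w i

theorem av_inner_le {N : ℕ} (hN : 0 < N) {w : ℕ → H} {z : H} {a : ℝ}
    (h : ∀ i < N, ⟪w i, z⟫ ≤ a) : ⟪av N w, z⟫ ≤ a := by
  have hN' : (0 : ℝ) < N := by exact_mod_cast hN
  unfold av
  rw [real_inner_smul_left, sum_inner, inv_mul_le_iff₀ hN']
  have := Finset.sum_le_sum (s := Finset.range N) (f := fun i => ⟪w i, z⟫) (g := fun _ => a)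
    (fun i hi => h i (Finset.mem_range.1 hi))
  rwa [Finset.sum_const, Finset.card_range, nsmul_eq_mul] at this

theorem le_av_inner {N : ℕ} (hN : 0 < N) {w : ℕ → H} {z : H} {a : ℝ}
    (h : ∀ i < N, a ≤ ⟪w i, z⟫) : a ≤ ⟪av N w, z⟫ := by
  have hN' : (0 : ℝ) < N := by exact_mod_cast hN
  unfold av
  rw [real_inner_smul_left, sum_inner, le_inv_mul_iff₀ hN']
  have := Finset.sum_le_sum (s := Finset.range N) (f := fun _ => a) (g := fun i => ⟪w i, z⟫)
    (fun i hi => h i (Finset.mem_range.1 hi))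
  rwa [Finset.sum_const, Finset.card_range, nsmul_eq_mul] at this

theorem av_norm_sq_le {N : ℕ} (hN : 0 < N) {w : ℕ → H} {D C : ℝ}
    (hD : ∀ i < N, ⟪w i, w i⟫ ≤ D) (hC : ∀ i < N, ∀ j < N, i ≠ j → ⟪w i, w j⟫ ≤ C) :
    ‖av N w‖ ^ 2 ≤ C + (D + |C|) / N := by
  have hN' : (0 : ℝ) < N := by exact_mod_cast hN
  rw [← real_inner_self_eq_norm_sq]
  refine av_inner_le hN fun i hi => ?_
  unfold av
  rw [inner_smul_right, inner_sum, inv_mul_le_iff₀ hN']
  have h4 : ∀ j ∈ Finset.range N, ⟪w i, w j⟫ ≤ C + (if i = j then D + |C| else 0) := by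
    intro j hj
    rw [Finset.mem_range] at hj
    by_cases hij : i = j
    · rw [if_pos hij, ← hij]
      have := hD i hi
      have := neg_abs_le C
      linarith
    · rw [if_neg hij, add_zero]
      exact hC i hi j hj hij
  refine (Finset.sum_le_sum h4).trans ?_
  rw [Finset.sum_add_distrib, Finset.sum_const, Finset.card_range, nsmul_eq_mul,
    Finset.sum_ite_eq, if_pos (Finset.mem_range.2 hi)]
  apply le_of_eq
  field_simp

/-- Averages over small parameters of a stationary curve with a punctured limit. -/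
theorem avg_exists {V : ℝ → H} {φ : ℝ → ℝ} (hV : ∀ s s', ⟪V s, V s'⟫ = φ (s - s')) {q : ℝ}
    (hq : Tendsto φ (𝓝[≠] 0) (𝓝 q)) {ε : ℝ} (hε : 0 < ε) :
    ∃ N : ℕ, 0 < N ∧ ∃ s : ℕ → ℝ, (∀ k < N, q - ε ≤ ⟪V (s k), V 0⟫) ∧
      ‖av N (fun k => V (s k))‖ ^ 2 ≤ q + ε := by
  have h1 : ∀ᶠ σ in 𝓝[≠] (0 : ℝ), φ σ ∈ Ioo (q - ε / 2) (q + ε / 2) :=
    hq (Ioo_mem_nhds (by linarith) (by linarith))
  rw [eventually_nhdsWithin_iff, Metric.eventually_nhds_iff] at h1
  obtain ⟨δ, hδ, h1⟩ := h1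
  have h2 : ∀ σ, σ ≠ 0 → |σ| < δ → φ σ ∈ Ioo (q - ε / 2) (q + ε / 2) := by
    intro σ h0 h
    exact h1 (by rwa [Real.dist_0_eq_abs]) h0
  obtain ⟨D, hD⟩ : ∃ D : ℝ, D = φ 0 + |q + ε / 2| := ⟨_, rfl⟩
  obtain ⟨N, hN⟩ := exists_nat_gt (max 1 (D / (ε / 2)))
  have hN1 : (1 : ℝ) < N := (le_max_left _ _).trans_lt hN
  have hN0 : 0 < N := by
    rcases Nat.eq_zero_or_pos N with h | h
    · rw [h] at hN1; norm_num at hN1
    · exact h
  have hN2 : D / N ≤ ε / 2 := by
    have h3 := (le_max_right _ _).trans_lt hN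
    rw [div_lt_iff₀ (by linarith)] at h3
    rw [div_le_iff₀ (by linarith)]
    linarith
  set s : ℕ → ℝ := fun k => δ * ((k + 1) / (N + 1)) with hs
  have hs0 : ∀ k, 0 < s k := fun k => by rw [hs]; positivity
  have hs1 : ∀ k < N, s k < δ := by
    intro k hk
    have h3 : ((k : ℝ) + 1) / (N + 1) < 1 := by
      rw [div_lt_one (by positivity)]
      have : (k : ℝ) < N := by exact_mod_cast hk
      linarith
    calc δ * ((k + 1) / (N + 1)) < δ * 1 := mul_lt_mul_of_pos_left h3 hδ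
      _ = δ := mul_one δ
  have hsinj : ∀ i j, i ≠ j → s i - s j ≠ 0 := by
    intro i j hij h
    apply hij
    have h3 : δ * ((i + 1) / (N + 1)) = δ * (((j : ℝ) + 1) / (N + 1)) := sub_eq_zero.1 h
    have h4 := mul_left_cancel₀ hδ.ne' h3
    rw [div_left_inj' (by positivity)] at h4
    have h5 : (i : ℝ) = j := by linarith
    exact_mod_cast h5
  refine ⟨N, hN0, s, fun k hk => ?_, ?_⟩
  · have h3 := h2 (s k - 0) (by rw [sub_zero]; exact (hs0 k).ne')
      (by rw [sub_zero, abs_of_pos (hs0 k)]; exact hs1 k hk)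
    rw [hV]
    linarith [h3.1]
  · have h3 := av_norm_sq_le hN0 (w := fun k => V (s k)) (D := φ 0) (C := q + ε / 2)
      (fun i _ => by rw [hV, sub_self])
      (fun i hi j hj hij => by
        rw [hV]
        refine (h2 _ (hsinj i j hij) ?_).2.le
        have := hs0 i
        have := hs0 j
        have := hs1 i hi
        have := hs1 j hj
        rw [abs_lt]
        constructor <;> linarith)
    rw [← hD] at h3
    linarith

theorem limit_nonneg {V : ℝ → H} {φ : ℝ → ℝ} (hV : ∀ s s', ⟪V s, V s'⟫ = φ (s - s')) {q : ℝ}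
    (hq : Tendsto φ (𝓝[≠] 0) (𝓝 q)) : 0 ≤ q := by
  refine le_of_forall_pos_le_add fun ε hε => ?_
  obtain ⟨N, -, s, -, h⟩ := avg_exists hV hq hε
  exact (sq_nonneg _).trans h

theorem limit_le {V : ℝ → H} {φ : ℝ → ℝ} (hV : ∀ s s', ⟪V s, V s'⟫ = φ (s - s')) {q : ℝ}
    (hq : Tendsto φ (𝓝[≠] 0) (𝓝 q)) : q ≤ φ 0 := by
  refine le_of_forall_pos_le_add fun ε hε => ?_
  obtain ⟨N, hN, s, h1, h2⟩ := avg_exists hV hq (ε := ε / 3) (by linarith)
  have h3 := le_av_inner hN (w := fun k => V (s k)) (z := V 0) h1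
  have h4 := sq_nonneg ‖av N (fun k => V (s k)) - V 0‖
  rw [norm_sub_sq_real, ← real_inner_self_eq_norm_sq (V 0), hV, sub_zero] at h4
  linarith

theorem const_eq_zero {V : ℝ → H} {φ : ℝ → ℝ} (hV : ∀ s s', ⟪V s, V s'⟫ = φ (s - s'))
    (hq : Tendsto φ (𝓝[≠] 0) (𝓝 0)) {z : H} {κ : ℝ} (hz : ∀ s, ⟪V s, z⟫ = κ) : κ = 0 := by
  have h0 : κ ^ 2 ≤ 0 := by
    refine le_of_forall_pos_le_add fun ε hε => ?_
    obtain ⟨N, hN, s, -, h⟩ := avg_exists hV hq (ε := ε / (‖z‖ ^ 2 + 1)) (by positivity)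
    have h1 : ⟪av N (fun k => V (s k)), z⟫ = κ :=
      le_antisymm (av_inner_le hN fun i _ => (hz _).le) (le_av_inner hN fun i _ => (hz _).ge)
    have h2 := abs_real_inner_le_norm (av N (fun k => V (s k))) z
    rw [h1] at h2
    have h3 : κ ^ 2 ≤ ‖av N (fun k => V (s k))‖ ^ 2 * ‖z‖ ^ 2 := by
      rw [← mul_pow, ← sq_abs κ]
      exact pow_le_pow_left₀ (abs_nonneg _) h2 2
    have h4 : ‖av N (fun k => V (s k))‖ ^ 2 * ‖z‖ ^ 2 ≤ ε / (‖z‖ ^ 2 + 1) * ‖z‖ ^ 2 := by
      refine mul_le_mul_of_nonneg_right (by linarith) (by positivity)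
    have h5 : ε / (‖z‖ ^ 2 + 1) * ‖z‖ ^ 2 ≤ ε := by
      rw [div_mul_eq_mul_div, div_le_iff₀ (by positivity)]
      nlinarith [sq_nonneg ‖z‖]
    linarith
  have := sq_nonneg κ
  nlinarith

end avg

end SphEl41
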