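import Pool.Agent.LibSphEl41.Limits

/-!
Existence of the punctured limits in dimension at least four: a circle and a family of points on
its axis plane at prescribed distances.
-/

open scoped RealInnerProductSpace
open Set Filter Topology

set_option linter.unusedSimpArgs false

namespace SphEl41

/-! ### elementary finiteness facts -/

theorem finite_sq (a κ : ℝ) : {s : ℝ | (s - a) ^ 2 = κ}.Finite := by
  refine (Set.toFinite {a + √κ, a - √κ}).subset fun s hs => ?_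
  have hs' : (s - a) ^ 2 = κ := hs
  have h1 : √κ = |s - a| := by rw [← hs', Real.sqrt_sq_eq_abs]
  rw [mem_insert_iff, mem_singleton_iff, h1]
  rcases abs_choice (s - a) with h | h
  · left; rw [h]; ring
  · right; rw [h]; ring

/-- `u u' + √(1-u²) √(1-u'²) = β` squared. -/
theorem sq_rel {u u' β : ℝ} (hu : u ^ 2 ≤ 1) (hu' : u' ^ 2 ≤ 1)
    (h : u * u' + √(1 - u ^ 2) * √(1 - u' ^ 2) = β) : β ^ 2 - 2 * β * u * u' = 1 - u ^ 2 - u' ^ 2 := by
  have h1 : √(1 - u ^ 2) * √(1 - u' ^ 2) = β - u * u' := by linarith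
  have h2 := congrArg (fun x => x ^ 2) h1
  simp only [mul_pow] at h2
  rw [Real.sq_sqrt (by linarith), Real.sq_sqrt (by linarith)] at h2
  nlinarith [h2]

theorem prod_mem {u u' : ℝ} (hu : u ^ 2 < 1) (hu' : u' ^ 2 < 1) (hne : u ≠ u') :
    u * u' + √(1 - u ^ 2) * √(1 - u' ^ 2) ∈ Ioo (-1 : ℝ) 1 := by
  have h1 : (√(1 - u ^ 2)) ^ 2 = 1 - u ^ 2 := Real.sq_sqrt (by linarith)
  have h2 : (√(1 - u' ^ 2)) ^ 2 = 1 - u' ^ 2 := Real.sq_sqrt (by linarith)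
  have h3 : 0 < √(1 - u ^ 2) := Real.sqrt_pos.2 (by linarith)
  have h4 : 0 < √(1 - u' ^ 2) := Real.sqrt_pos.2 (by linarith)
  have h5 := mul_pos h3 h4
  have h6 : 0 < (u - u') ^ 2 := by
    have : u - u' ≠ 0 := sub_ne_zero.2 hne
    positivity
  constructor
  · nlinarith [sq_nonneg (u + u')]
  · nlinarith [sq_nonneg (√(1 - u ^ 2) - √(1 - u' ^ 2))]

/-- Greedy choice of a sequence. -/
theorem greedy {T : Set ℝ} (hT : T.Infinite) {R : ℝ → ℝ → Prop}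
    (hsymm : ∀ x y, R x y → R y x) (hfin : ∀ x ∈ T, {y | ¬ R x y}.Finite) :
    ∃ s : ℕ → ℝ, (∀ n, s n ∈ T) ∧ ∀ m n, m ≠ n → R (s m) (s n) := by
  have : Std.Symm R := ⟨hsymm⟩
  obtain ⟨s, h1, h2⟩ := exists_seq_of_forall_finset_exists' (fun x => x ∈ T) R (by
    intro F hF
    have hfin' : (⋃ x ∈ F, {y | ¬ R x y}).Finite :=
      F.finite_toSet.biUnion fun x hx => hfin x (hF x hx)
    obtain ⟨y, hy, hy'⟩ := hT.exists_notMem_finite hfin'
    refine ⟨y, hy, fun x hx => ?_⟩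
    simp only [mem_iUnion, not_exists] at hy'
    by_contra hcon
    exact hy' x hx hcon)
  exact ⟨s, h1, fun m n hmn => h2 hmn⟩

/-! ### the cofinite supremum -/

section sup

variable {f : ℝ → ℝ} {M : ℝ}

theorem exists_bound_lt {t : ℕ → ℝ} (ht : ∀ n, t n ∈ Ioo (-1 : ℝ) 1) (N : ℕ) :
    ∃ c₀ : ℝ, 0 ≤ c₀ ∧ c₀ < 1 ∧ ∀ n < N, |t n| ≤ c₀ := by
  induction N with
  | zero => exact ⟨0, le_rfl, one_pos, fun n hn => absurd hn (by omega)⟩
  | succ N ih =>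
    obtain ⟨c, h0, h1, h2⟩ := ih
    refine ⟨max c |t N|, h0.trans (le_max_left _ _), max_lt h1 (abs_lt.2 (ht N)), ?_⟩
    intro n hn
    rcases Nat.lt_succ_iff_lt_or_eq.1 hn with h | h
    · exact (h2 n h).trans (le_max_left _ _)
    · rw [h]; exact le_max_right _ _

theorem exists_cosup (hM : ∀ t ∈ Icc (-1 : ℝ) 1, |f t| ≤ M) :
    ∃ K : ℝ, |K| ≤ M ∧ (∀ ε > 0, {t | t ∈ Ioo (-1 : ℝ) 1 ∧ K + ε ≤ f t}.Finite) ∧
      (∀ ε > 0, {t | t ∈ Ioo (-1 : ℝ) 1 ∧ K - ε ≤ f t}.Infinite) := by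
  set S : Set ℝ := {k | {t | t ∈ Ioo (-1 : ℝ) 1 ∧ k ≤ f t}.Finite} with hS
  have hup : ∀ ε > 0, M + ε ∈ S := by
    intro ε hε
    have : {t | t ∈ Ioo (-1 : ℝ) 1 ∧ M + ε ≤ f t} = ∅ := by
      ext t
      refine ⟨fun h => ?_, fun h => h.elim⟩
      obtain ⟨ht, h2⟩ := h
      have := hM t ⟨ht.1.le, ht.2.le⟩
      have := le_abs_self (f t)
      linarith
    change {t | t ∈ Ioo (-1 : ℝ) 1 ∧ M + ε ≤ f t}.Finite
    rw [this]
    exact finite_empty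
  have hlow : ∀ k ∈ S, -M ≤ k := by
    intro k hk
    by_contra hcon
    have h1 : Ioo (-1 : ℝ) 1 ⊆ {t | t ∈ Ioo (-1 : ℝ) 1 ∧ k ≤ f t} := by
      intro t ht
      refine ⟨ht, ?_⟩
      have := hM t ⟨ht.1.le, ht.2.le⟩
      have := neg_abs_le (f t)
      linarith
    exact (Ioo_infinite (by norm_num : (-1 : ℝ) < 1)) (Set.Finite.subset hk h1)
  have hne : S.Nonempty := ⟨M + 1, hup 1 one_pos⟩
  have hbd : BddBelow S := ⟨-M, hlow⟩
  refine ⟨sInf S, ?_, ?_, ?_⟩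
  · rw [abs_le]
    exact ⟨le_csInf hne hlow, le_of_forall_pos_le_add fun ε hε => csInf_le hbd (hup ε hε)⟩
  · intro ε hε
    obtain ⟨k, hk, hk'⟩ := exists_lt_of_csInf_lt hne (show sInf S < sInf S + ε by linarith)
    refine Set.Finite.subset hk fun t ht => ⟨ht.1, hk'.le.trans ht.2⟩
  · intro ε hε h
    exact notMem_of_lt_csInf (show sInf S - ε < sInf S by linarith) hbd
      (show sInf S - ε ∈ S from h)

end sup

section circle

variable {E : Type*} [NormedAddCommGroup E] [InnerProductSpace ℝ E]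

/-- Points at distances `t` on the axis of the circle. -/
noncomputable def pA (e : Fin 4 → E) (u : ℝ) : E := u • e 0 + √(1 - u ^ 2) • e 1

/-- Points on the circle. -/
noncomputable def pX (e : Fin 4 → E) (c r s : ℝ) : E :=
  c • e 0 + (r * s) • e 2 + (r * √(1 - s ^ 2)) • e 3

/-- Test points. -/
noncomputable def pZ (e : Fin 4 → E) (a b : ℝ) : E := a • e 0 + b • e 2

theorem norm_eq_one_of {x : E} (h : ⟪x, x⟫ = 1) : ‖x‖ = 1 := by
  rw [real_inner_self_eq_norm_sq] at h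
  exact (pow_left_inj₀ (norm_nonneg _) zero_le_one two_ne_zero).1 (by rw [h]; ring)

variable {e : Fin 4 → E} (he : ∀ i j, ⟪e i, e j⟫ = if i = j then (1 : ℝ) else 0)

include he

theorem e_if : ⟪e 0, e 0⟫ = 1 ∧ ⟪e 1, e 1⟫ = 1 ∧ ⟪e 2, e 2⟫ = 1 ∧ ⟪e 3, e 3⟫ = 1 ∧
    ⟪e 0, e 1⟫ = 0 ∧ ⟪e 0, e 2⟫ = 0 ∧ ⟪e 0, e 3⟫ = 0 ∧ ⟪e 2, e 0⟫ = 0 ∧ ⟪e 2, e 3⟫ = 0 ∧
    ⟪e 3, e 0⟫ = 0 ∧ ⟪e 3, e 2⟫ = 0 ∧ ⟪e 1, e 0⟫ = 0 ∧ ⟪e 2, e 1⟫ = 0 ∧ ⟪e 3, e 1⟫ = 0 := by
  refine ⟨?_, ?_, ?_, ?_, ?_, ?_, ?_, ?_, ?_, ?_, ?_, ?_, ?_, ?_⟩ <;> rw [he] <;>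
    first | exact if_pos rfl | exact if_neg (by decide)

theorem pA_pA (u u' : ℝ) : ⟪pA e u, pA e u'⟫ = u * u' + √(1 - u ^ 2) * √(1 - u' ^ 2) := by
  unfold pA
  obtain ⟨h00, h11, h22, h33, h01, h02, h03, h20, h23, h30, h32, h10, h21, h31⟩ := e_if he
  simp only [inner_add_left, inner_add_right, real_inner_smul_left, real_inner_smul_right, h00,
    h11, h22, h33, h01, h02, h03, h20, h23, h30, h32, h10, h21, h31]
  ring

theorem pX_pX (c r s s' : ℝ) : ⟪pX e c r s, pX e c r s'⟫ =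
    c ^ 2 + r ^ 2 * (s * s' + √(1 - s ^ 2) * √(1 - s' ^ 2)) := by
  unfold pX
  obtain ⟨h00, h11, h22, h33, h01, h02, h03, h20, h23, h30, h32, h10, h21, h31⟩ := e_if he
  simp only [inner_add_left, inner_add_right, real_inner_smul_left, real_inner_smul_right, h00,
    h11, h22, h33, h01, h02, h03, h20, h23, h30, h32, h10, h21, h31]
  ring

theorem pX_pA (c r s u : ℝ) : ⟪pX e c r s, pA e u⟫ = c * u := by
  unfold pX pA
  obtain ⟨h00, h11, h22, h33, h01, h02, h03, h20, h23, h30, h32, h10, h21, h31⟩ := e_if he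
  simp only [inner_add_left, inner_add_right, real_inner_smul_left, real_inner_smul_right, h00,
    h11, h22, h33, h01, h02, h03, h20, h23, h30, h32, h10, h21, h31]
  ring

theorem pX_pZ (c r s a b : ℝ) : ⟪pX e c r s, pZ e a b⟫ = c * a + r * s * b := by
  unfold pX pZ
  obtain ⟨h00, h11, h22, h33, h01, h02, h03, h20, h23, h30, h32, h10, h21, h31⟩ := e_if he
  simp only [inner_add_left, inner_add_right, real_inner_smul_left, real_inner_smul_right, h00,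
    h11, h22, h33, h01, h02, h03, h20, h23, h30, h32, h10, h21, h31]
  ring

theorem pZ_norm {a b : ℝ} (h : a ^ 2 + b ^ 2 = 1) : ‖pZ e a b‖ = 1 := by
  apply norm_eq_one_of
  unfold pZ
  obtain ⟨h00, h11, h22, h33, h01, h02, h03, h20, h23, h30, h32, h10, h21, h31⟩ := e_if he
  simp only [inner_add_left, inner_add_right, real_inner_smul_left, real_inner_smul_right, h00,
    h11, h22, h33, h01, h02, h03, h20, h23, h30, h32, h10, h21, h31]
  linarith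

theorem pA_norm {u : ℝ} (hu : u ^ 2 ≤ 1) : ‖pA e u‖ = 1 := by
  apply norm_eq_one_of
  rw [pA_pA he, Real.mul_self_sqrt (by linarith)]
  ring

theorem pX_norm {c r s : ℝ} (hcr : c ^ 2 + r ^ 2 = 1) (hs : s ^ 2 ≤ 1) : ‖pX e c r s‖ = 1 := by
  apply norm_eq_one_of
  rw [pX_pX he, Real.mul_self_sqrt (by linarith)]
  linear_combination hcr

end circle

section bound

variable {E : Type*} [NormedAddCommGroup E] [InnerProductSpace ℝ E] {f : ℝ → ℝ}

theorem rv_self (hf : PD E f) {x : E} (hx : ‖x‖ = 1) : ⟪rv hf x, rv hf x⟫ = f 1 := by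
  rw [rv_inner hf hx hx, real_inner_self_eq_norm_sq, hx]
  norm_num

theorem rv_sq (hf : PD E f) {x : E} (hx : ‖x‖ = 1) : ‖rv hf x‖ ^ 2 = f 1 := by
  rw [← real_inner_self_eq_norm_sq, rv_self hf hx]

theorem abs_le_one (hf : PD E f) {x y : E} (hx : ‖x‖ = 1) (hy : ‖y‖ = 1) : |f ⟪x, y⟫| ≤ f 1 := by
  have h2 := abs_real_inner_le_norm (rv hf x) (rv hf y)
  have h6 : ‖rv hf y‖ = ‖rv hf x‖ :=
    (pow_left_inj₀ (norm_nonneg _) (norm_nonneg _) two_ne_zero).1 (by rw [rv_sq hf hx, rv_sq hf hy])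
  rwa [rv_inner hf hx hy, h6, ← sq, rv_sq hf hx] at h2

theorem abs_le_one' (hf : PD E f) {e : Fin 4 → E}
    (he : ∀ i j, ⟪e i, e j⟫ = if i = j then (1 : ℝ) else 0) {t : ℝ} (ht : t ∈ Icc (-1 : ℝ) 1) :
    |f t| ≤ f 1 := by
  have h1 : t ^ 2 ≤ 1 := by nlinarith [ht.1, ht.2]
  have h2 := abs_le_one hf (pA_norm he (u := 1) (by norm_num)) (pA_norm he h1)
  have h7 : (1 : ℝ) * t + √(1 - 1 ^ 2) * √(1 - t ^ 2) = t := by simp
  rwa [pA_pA he, h7] at h2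

/-- choice of the radius -/
theorem exists_c {t : ℕ → ℝ} (htinj : Function.Injective t) (ht : ∀ n, t n ∈ Ioo (-1 : ℝ) 1)
    (N : ℕ) {B : Set ℝ} (hBf : B.Finite) (hB1 : B ⊆ Ioo (-1) 1) :
    ∃ c : ℝ, 0 < c ∧ c < 1 ∧ (∀ n < N, (t n / c) ^ 2 < 1) ∧ ∀ i < N, ∀ j < N, i ≠ j →
      t i / c * (t j / c) + √(1 - (t i / c) ^ 2) * √(1 - (t j / c) ^ 2) ∈ Ioo (-1 : ℝ) 1 ∧
      t i / c * (t j / c) + √(1 - (t i / c) ^ 2) * √(1 - (t j / c) ^ 2) ∉ B := by
  obtain ⟨c₀, hc₀0, hc₀1, hc₀⟩ := exists_bound_lt ht N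
  obtain ⟨bad, hbad⟩ : ∃ bad : Set ℝ, bad = ⋃ i ∈ Finset.range N, ⋃ j ∈ Finset.range N, ⋃ β ∈ B,
    {c : ℝ | (c - 0) ^ 2 = (t i ^ 2 + t j ^ 2 - 2 * β * t i * t j) / (1 - β ^ 2)} := ⟨_, rfl⟩
  have hbadf : bad.Finite := by
    rw [hbad]
    exact (Finset.finite_toSet _).biUnion fun i _ => (Finset.finite_toSet _).biUnion fun j _ =>
      hBf.biUnion fun β _ => finite_sq _ _
  obtain ⟨c, hc, hcbad⟩ := (Ioo_infinite hc₀1).exists_notMem_finite hbadf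
  have hc0 : 0 < c := lt_of_le_of_lt hc₀0 hc.1
  have hut : ∀ n < N, (t n / c) ^ 2 < 1 := by
    intro n hn
    rw [sq_lt_one_iff_abs_lt_one, abs_div, abs_of_pos hc0, div_lt_one hc0]
    exact (hc₀ n hn).trans_lt hc.1
  have hune : ∀ i j, i ≠ j → t i / c ≠ t j / c := by
    intro i j hij h
    rw [div_left_inj' hc0.ne'] at h
    exact hij (htinj h)
  refine ⟨c, hc0, hc.2, hut, fun i hi j hj hij =>
    ⟨prod_mem (hut i hi) (hut j hj) (hune i j hij), fun hmem => ?_⟩⟩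
  obtain ⟨β, hβ⟩ : ∃ β, β = t i / c * (t j / c) +
    √(1 - (t i / c) ^ 2) * √(1 - (t j / c) ^ 2) := ⟨_, rfl⟩
  have h1 := sq_rel (hut i hi).le (hut j hj).le hβ.symm
  rw [← hβ] at hmem
  have hβ1 : 0 < 1 - β ^ 2 := by
    have := hB1 hmem
    nlinarith [this.1, this.2]
  apply hcbad
  rw [hbad]
  simp only [mem_iUnion]
  refine ⟨i, Finset.mem_range.2 hi, j, Finset.mem_range.2 hj, β, hmem, ?_⟩
  change (c - 0) ^ 2 = (t i ^ 2 + t j ^ 2 - 2 * β * t i * t j) / (1 - β ^ 2)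
  rw [eq_div_iff hβ1.ne', sub_zero]
  have hc2 : c ^ 2 ≠ 0 := by positivity
  have h2 : c ^ 2 * (β ^ 2 - 2 * β * (t i / c) * (t j / c)) =
      c ^ 2 * (1 - (t i / c) ^ 2 - (t j / c) ^ 2) := by rw [h1]
  have h3 : c ^ 2 * (β ^ 2 - 2 * β * (t i / c) * (t j / c)) = c ^ 2 * β ^ 2 - 2 * β * t i * t j := by
    field_simp
  have h4 : c ^ 2 * (1 - (t i / c) ^ 2 - (t j / c) ^ 2) = c ^ 2 - t i ^ 2 - t j ^ 2 := by
    field_simp
  rw [h3, h4] at h2
  linarith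

/-- Sequences on the circle with inner products outside of a finite set. -/
theorem exists_circle_seq {T : Set ℝ} (hT : T ⊆ Ioo (-1) 1) (hTi : T.Infinite) {B : Set ℝ}
    (hBf : B.Finite) {c r : ℝ} (hc0 : 0 < c) (hr0 : 0 < r) (hcr : c ^ 2 + r ^ 2 = 1) :
    ∃ s : ℕ → ℝ, (∀ n, s n ∈ T) ∧ ∀ i j, i ≠ j →
      c ^ 2 + r ^ 2 * (s i * s j + √(1 - s i ^ 2) * √(1 - s j ^ 2)) ∈ Ioo (-1 : ℝ) 1 ∧
      c ^ 2 + r ^ 2 * (s i * s j + √(1 - s i ^ 2) * √(1 - s j ^ 2)) ∉ B := by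
  have hTsq : ∀ s ∈ T, s ^ 2 < 1 := fun s hs => by
    have := hT hs
    nlinarith [this.1, this.2]
  obtain ⟨s, hsT, hs⟩ := greedy hTi
    (R := fun s s' => (s ^ 2 < 1 → s' ^ 2 < 1 →
      s ≠ s' ∧ c ^ 2 + r ^ 2 * (s * s' + √(1 - s ^ 2) * √(1 - s' ^ 2)) ∉ B)) (by
      intro x y h h1 h2
      obtain ⟨h3, h4⟩ := h h2 h1
      refine ⟨h3.symm, ?_⟩
      rwa [mul_comm y x, mul_comm (√(1 - y ^ 2))]) (by
      intro x hx
      have hfin : ({x} ∪ ⋃ β ∈ B, {y : ℝ | (y - (β - c ^ 2) / r ^ 2 * x) ^ 2 =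
          1 - x ^ 2 - ((β - c ^ 2) / r ^ 2) ^ 2 + ((β - c ^ 2) / r ^ 2 * x) ^ 2}).Finite :=
        (finite_singleton x).union (hBf.biUnion fun β _ => finite_sq _ _)
      refine hfin.subset fun y hy => ?_
      change ¬ _ at hy
      push Not at hy
      obtain ⟨h3, h2, h1⟩ := hy
      by_cases hxy : x = y
      · left; exact hxy.symm
      · right
        have h4 := h1 hxy
        simp only [mem_iUnion]
        refine ⟨_, h4, ?_⟩
        have h5 := sq_rel h3.le h2.le rfl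
        obtain ⟨β, hβ⟩ : ∃ β, β = x * y + √(1 - x ^ 2) * √(1 - y ^ 2) := ⟨_, rfl⟩
        rw [← hβ] at h5 ⊢
        have h6 : (c ^ 2 + r ^ 2 * β - c ^ 2) / r ^ 2 = β := by
          field_simp
          ring
        change (y - (c ^ 2 + r ^ 2 * β - c ^ 2) / r ^ 2 * x) ^ 2 = 1 - x ^ 2 -
          ((c ^ 2 + r ^ 2 * β - c ^ 2) / r ^ 2) ^ 2 +
          ((c ^ 2 + r ^ 2 * β - c ^ 2) / r ^ 2 * x) ^ 2
        rw [h6]
        linarith)
  refine ⟨s, hsT, fun i j hij => ?_⟩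
  have h1 := hTsq _ (hsT i)
  have h2 := hTsq _ (hsT j)
  obtain ⟨h3, h4⟩ := hs i j hij h1 h2
  refine ⟨?_, h4⟩
  have h5 := prod_mem h1 h2 h3
  have hr2 : 0 < r ^ 2 := by positivity
  have hc2 : 0 < c ^ 2 := by positivity
  have h6 := mul_lt_mul_of_pos_left h5.1 hr2
  have h7 := mul_lt_mul_of_pos_left h5.2 hr2
  constructor <;> linarith

theorem near_const (hf : PD E f) {e : Fin 4 → E}
    (he : ∀ i j, ⟪e i, e j⟫ = if i = j then (1 : ℝ) else 0)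
    {η : ℝ} (hη : 0 < η) : ∃ c r : ℝ, 0 < c ∧ 0 < r ∧ c ^ 2 + r ^ 2 = 1 ∧
      ∀ a b : ℝ, a ^ 2 + b ^ 2 = 1 →
        ∃ w : ℝ, {s | s ∈ Ioo (-1 : ℝ) 1 ∧ η < |f (c * a + r * s * b) - w|}.Finite := by
  obtain ⟨M, hMdef⟩ : ∃ M : ℝ, M = f 1 := ⟨_, rfl⟩
  have hM0 : 0 ≤ M := by
    rw [hMdef, ← rv_sq hf (pA_norm he (u := 0) (by norm_num))]
    positivity
  have hMb : ∀ t ∈ Icc (-1 : ℝ) 1, |f t| ≤ M := fun t ht => hMdef ▸ abs_le_one' hf he ht
  obtain ⟨K, hK, hKf, hKi⟩ := exists_cosup hMb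
  -- the small constant
  obtain ⟨ε, hε0, hε1, hε⟩ : ∃ ε : ℝ, 0 < ε ∧ ε ≤ 1 ∧ 5 * ε * M < η ^ 2 := by
    refine ⟨min 1 (η ^ 2 / (5 * M + 5)), by positivity, min_le_left _ _, ?_⟩
    have h1 := min_le_right 1 (η ^ 2 / (5 * M + 5))
    have h2 : 5 * min 1 (η ^ 2 / (5 * M + 5)) * M ≤ 5 * (η ^ 2 / (5 * M + 5)) * M := by gcongr
    refine h2.trans_lt ?_
    rw [show 5 * (η ^ 2 / (5 * M + 5)) * M = η ^ 2 * (5 * M) / (5 * M + 5) by ring,
      div_lt_iff₀ (by linarith)]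
    nlinarith [pow_pos hη 2]
  obtain ⟨N, hN⟩ := exists_nat_gt (2 * (2 * M + 1) / ε)
  have hN' : (0 : ℝ) < N := lt_of_le_of_lt (by positivity) hN
  have hN0 : 0 < N := by exact_mod_cast hN'
  have hNε : 2 * ((M + |K + ε|) / N) ≤ ε := by
    have h1 : |K + ε| ≤ M + 1 := by
      refine (abs_add_le _ _).trans ?_
      rw [abs_of_pos hε0]
      linarith
    rw [div_lt_iff₀ hε0] at hN
    rw [← mul_div_assoc, div_le_iff₀ hN']
    linarith
  obtain ⟨B, hB⟩ : ∃ B : Set ℝ, B = {t | t ∈ Ioo (-1 : ℝ) 1 ∧ K + ε ≤ f t} := ⟨_, rfl⟩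
  have hBf : B.Finite := hB ▸ hKf ε hε0
  have hBlt : ∀ t ∈ Ioo (-1 : ℝ) 1, t ∉ B → f t ≤ K + ε := by
    intro t ht htB
    by_contra hcon
    rw [hB] at htB
    exact htB ⟨ht, by linarith⟩
  have hB1 : B ⊆ Ioo (-1) 1 := by
    rw [hB]
    exact fun t ht => ht.1
  -- the good values
  obtain ⟨t, htinj, ht1, htA⟩ : ∃ t : ℕ → ℝ, Function.Injective t ∧
      (∀ n, t n ∈ Ioo (-1 : ℝ) 1) ∧ ∀ n, K - ε ≤ f (t n) :=
    ⟨fun n => ((hKi ε hε0).natEmbedding _ n : ℝ),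
      fun m n h => ((hKi ε hε0).natEmbedding _).injective (Subtype.ext h),
      fun n => ((hKi ε hε0).natEmbedding _ n).2.1,
      fun n => ((hKi ε hε0).natEmbedding _ n).2.2⟩
  obtain ⟨c, hc0, hc1, hut, hcc⟩ := exists_c htinj ht1 N hBf hB1
  obtain ⟨r, hr0, hr⟩ : ∃ r : ℝ, 0 < r ∧ c ^ 2 + r ^ 2 = 1 := by
    have : 0 < 1 - c ^ 2 := by nlinarith
    exact ⟨√(1 - c ^ 2), Real.sqrt_pos.2 this, by rw [Real.sq_sqrt this.le]; ring⟩
  obtain ⟨Y, hY⟩ : ∃ Y, Y = av N (fun n => rv hf (pA e (t n / c))) := ⟨_, rfl⟩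
  have hYY : ‖Y‖ ^ 2 ≤ K + ε + (M + |K + ε|) / N := by
    rw [hY]
    refine av_norm_sq_le hN0 (fun i hi => ?_) (fun i hi j hj hij => ?_)
    · rw [rv_self hf (pA_norm he (hut i hi).le), hMdef]
    · rw [rv_inner hf (pA_norm he (hut i hi).le) (pA_norm he (hut j hj).le), pA_pA he]
      exact hBlt _ (hcc i hi j hj hij).1 (hcc i hi j hj hij).2
  -- averages over subsets of the circle
  have key : ∀ T : Set ℝ, T ⊆ Ioo (-1) 1 → T.Infinite → ∃ s : ℕ → ℝ, (∀ n, s n ∈ T) ∧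
      ‖av N (fun n => rv hf (pX e c r (s n))) - Y‖ ^ 2 ≤ 5 * ε := by
    intro T hT hTi
    have hTsq : ∀ s ∈ T, s ^ 2 < 1 := fun s hs => by
      have := hT hs
      nlinarith [this.1, this.2]
    obtain ⟨s, hsT, hs⟩ := exists_circle_seq hT hTi hBf hc0 hr0 hr
    refine ⟨s, hsT, ?_⟩
    have hsn : ∀ n, ‖pX e c r (s n)‖ = 1 := fun n => pX_norm he hr (hTsq _ (hsT n)).le
    obtain ⟨X, hX⟩ : ∃ X, X = av N (fun n => rv hf (pX e c r (s n))) := ⟨_, rfl⟩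
    have hXX' : ‖X‖ ^ 2 ≤ K + ε + (M + |K + ε|) / N := by
      rw [hX]
      refine av_norm_sq_le hN0 (fun i _ => ?_) (fun i _ j _ hij => ?_)
      · rw [rv_self hf (hsn i), hMdef]
      · rw [rv_inner hf (hsn i) (hsn j), pX_pX he]
        exact hBlt _ (hs i j hij).1 (hs i j hij).2
    have hXY : K - ε ≤ ⟪X, Y⟫ := by
      rw [hX, hY]
      refine le_av_inner hN0 fun i _ => ?_
      rw [real_inner_comm]
      refine le_av_inner hN0 fun j hj => ?_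
      rw [rv_inner hf (pA_norm he (hut j hj).le) (hsn i), real_inner_comm, pX_pA he,
        mul_div_cancel₀ _ hc0.ne']
      exact htA j
    rw [← hX, norm_sub_sq_real]
    linarith
  refine ⟨c, r, hc0, hr0, hr, ?_⟩
  intro a b hab
  have hzn : ‖pZ e a b‖ = 1 := pZ_norm he hab
  have hzX : ∀ s, s ^ 2 ≤ 1 → ⟪rv hf (pX e c r s), rv hf (pZ e a b)⟫ =
      f (c * a + r * s * b) := by
    intro s hs
    rw [rv_inner hf (pX_norm he hr hs) hzn, pX_pZ he]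
  have hcs : ∀ X : Sph41.Hil (kerOf hf), ‖X - Y‖ ^ 2 ≤ 5 * ε →
      |⟪X, rv hf (pZ e a b)⟫ - ⟪Y, rv hf (pZ e a b)⟫| < η := by
    intro X hX
    have h1 := abs_real_inner_le_norm (X - Y) (rv hf (pZ e a b))
    rw [inner_sub_left] at h1
    have h3 : (‖X - Y‖ * ‖rv hf (pZ e a b)‖) ^ 2 < η ^ 2 := by
      rw [mul_pow, rv_sq hf hzn, ← hMdef]
      have : ‖X - Y‖ ^ 2 * M ≤ 5 * ε * M := mul_le_mul_of_nonneg_right hX hM0
      linarith
    exact h1.trans_lt ((pow_lt_pow_iff_left₀ (by positivity) hη.le two_ne_zero).1 h3)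
  refine ⟨⟪Y, rv hf (pZ e a b)⟫, ?_⟩
  have hfin1 : {s | s ∈ Ioo (-1 : ℝ) 1 ∧
      ⟪Y, rv hf (pZ e a b)⟫ + η < f (c * a + r * s * b)}.Finite := by
    by_contra hinf
    obtain ⟨s, hs, hs'⟩ := key _ (fun s hs => hs.1) hinf
    have h1 := hcs _ hs'
    have h2 : ⟪Y, rv hf (pZ e a b)⟫ + η ≤
        ⟪av N (fun n => rv hf (pX e c r (s n))), rv hf (pZ e a b)⟫ := by
      refine le_av_inner hN0 fun i _ => ?_
      have h3 := (hs i).1
      rw [hzX _ (by nlinarith [h3.1, h3.2])]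
      exact (hs i).2.le
    rw [abs_lt] at h1
    linarith
  have hfin2 : {s | s ∈ Ioo (-1 : ℝ) 1 ∧
      f (c * a + r * s * b) < ⟪Y, rv hf (pZ e a b)⟫ - η}.Finite := by
    by_contra hinf
    obtain ⟨s, hs, hs'⟩ := key _ (fun s hs => hs.1) hinf
    have h1 := hcs _ hs'
    have h2 : ⟪av N (fun n => rv hf (pX e c r (s n))), rv hf (pZ e a b)⟫ ≤
        ⟪Y, rv hf (pZ e a b)⟫ - η := by
      refine av_inner_le hN0 fun i _ => ?_
      have h3 := (hs i).1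
      rw [hzX _ (by nlinarith [h3.1, h3.2])]
      exact (hs i).2.le
    rw [abs_lt] at h1
    linarith
  refine (hfin1.union hfin2).subset fun s hs => ?_
  obtain ⟨h1, h2⟩ := hs
  rw [lt_abs] at h2
  rcases h2 with h2 | h2
  · left; exact ⟨h1, by linarith⟩
  · right; exact ⟨h1, by linarith⟩

/-- Every point of `[-1, 1]` has a punctured neighbourhood covered by the inner products of a test
point with the circle. -/
theorem cover {c r : ℝ} (hc0 : 0 < c) (hr0 : 0 < r) (hcr : c ^ 2 + r ^ 2 = 1) {t₀ : ℝ}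
    (ht₀ : t₀ ∈ Icc (-1 : ℝ) 1) : ∃ a b δ : ℝ, a ^ 2 + b ^ 2 = 1 ∧ 0 < b ∧ 0 < δ ∧
      ∀ t ∈ Icc (-1 : ℝ) 1, t ≠ t₀ → |t - t₀| < δ → |t - c * a| < r * b := by
  have hc1 : c < 1 := by nlinarith [pow_pos hr0 2]
  rcases lt_or_ge |t₀| c with h | h
  · have h1 : (t₀ / c) ^ 2 < 1 := by
      rw [sq_lt_one_iff_abs_lt_one, abs_div, abs_of_pos hc0, div_lt_one hc0]
      exact h
    have h2 : 0 < √(1 - (t₀ / c) ^ 2) := Real.sqrt_pos.2 (by linarith)
    refine ⟨t₀ / c, √(1 - (t₀ / c) ^ 2), r * √(1 - (t₀ / c) ^ 2), ?_, h2, by positivity, ?_⟩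
    · rw [Real.sq_sqrt (by linarith)]; ring
    · intro t _ _ ht
      rwa [mul_div_cancel₀ _ hc0.ne']
  · have h3 : 0 < c - c * c + r * r := by nlinarith
    rcases le_abs.1 h with h | h
    · -- near `1`
      refine ⟨c, r, if t₀ = 1 then c - c * c + r * r else min (c - c * c + r * r) (1 - t₀), hcr,
        hr0, ?_, ?_⟩
      · split_ifs with h1
        · exact h3
        · exact lt_min h3 (by
            have := lt_of_le_of_ne ht₀.2 h1
            linarith)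
      · intro t ht hne hd
        have h4 : |t - t₀| < c - c * c + r * r := by
          split_ifs at hd
          · exact hd
          · exact hd.trans_le (min_le_left _ _)
        have h5 : t < 1 := by
          split_ifs at hd with h1
          · exact lt_of_le_of_ne ht.2 (by rw [← h1]; exact hne)
          · have := hd.trans_le (min_le_right _ _)
            rw [abs_lt] at this
            linarith
        rw [abs_lt] at h4 ⊢
        constructor <;> nlinarith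
    · -- near `-1`
      refine ⟨-c, r, if t₀ = -1 then c - c * c + r * r else min (c - c * c + r * r) (1 + t₀),
        by rw [neg_sq]; exact hcr, hr0, ?_, ?_⟩
      · split_ifs with h1
        · exact h3
        · exact lt_min h3 (by
            have := lt_of_le_of_ne ht₀.1 (Ne.symm h1)
            linarith)
      · intro t ht hne hd
        have h4 : |t - t₀| < c - c * c + r * r := by
          split_ifs at hd
          · exact hd
          · exact hd.trans_le (min_le_left _ _)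
        have h5 : -1 < t := by
          split_ifs at hd with h1
          · exact lt_of_le_of_ne ht.1 (by rw [← h1]; exact hne.symm)
          · have := hd.trans_le (min_le_right _ _)
            rw [abs_lt] at this
            linarith
        rw [abs_lt] at h4 ⊢
        constructor <;> nlinarith

theorem near_limit (hf : PD E f) {e : Fin 4 → E}
    (he : ∀ i j, ⟪e i, e j⟫ = if i = j then (1 : ℝ) else 0)
    {η : ℝ} (hη : 0 < η) {t₀ : ℝ} (ht₀ : t₀ ∈ Icc (-1 : ℝ) 1) :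
    ∃ w : ℝ, ∀ᶠ t in 𝓝[Icc (-1 : ℝ) 1 \ {t₀}] t₀, |f t - w| ≤ η := by
  obtain ⟨c, r, hc0, hr0, hcr, h⟩ := near_const hf he hη
  obtain ⟨a, b, δ, hab, hb, hδ, hcov⟩ := cover hc0 hr0 hcr ht₀
  obtain ⟨w, hw⟩ := h a b hab
  refine ⟨w, ?_⟩
  have hfin := (hw.image fun s => c * a + r * s * b).subset (sdiff_subset (t := {t₀}))
  have h1 : ∀ᶠ t in 𝓝 t₀, t ∉ (fun s => c * a + r * s * b) ''
      {s | s ∈ Ioo (-1 : ℝ) 1 ∧ η < |f (c * a + r * s * b) - w|} \ {t₀} :=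
    hfin.isClosed.isOpen_compl.mem_nhds (fun hmem => hmem.2 rfl)
  have h2 : ∀ᶠ t in 𝓝 t₀, |t - t₀| < δ := by
    rw [Metric.eventually_nhds_iff]
    exact ⟨δ, hδ, fun t ht => by rwa [Real.dist_eq] at ht⟩
  filter_upwards [nhdsWithin_le_nhds h1, nhdsWithin_le_nhds h2, self_mem_nhdsWithin]
    with t ht1 ht2 ht3
  have hne : t ≠ t₀ := ht3.2
  by_contra hcon
  apply ht1
  refine ⟨⟨(t - c * a) / (r * b), ⟨?_, ?_⟩, ?_⟩, hne⟩
  · have h3 := hcov t ht3.1 hne ht2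
    have hrb : 0 < r * b := by positivity
    rw [abs_lt] at h3
    constructor
    · rw [lt_div_iff₀ hrb]; linarith
    · rw [div_lt_iff₀ hrb]; linarith
  · have h4 : c * a + r * ((t - c * a) / (r * b)) * b = t := by
      field_simp
      ring
    rw [h4]
    exact not_le.1 hcon
  · change c * a + r * ((t - c * a) / (r * b)) * b = t
    field_simp
    ring

theorem exists_PL (hf : PD E f) {e : Fin 4 → E}
    (he : ∀ i j, ⟪e i, e j⟫ = if i = j then (1 : ℝ) else 0) : ∃ g, PL f g := by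
  have key : ∀ t₀ ∈ Icc (-1 : ℝ) 1, ∃ y, Tendsto f (𝓝[Icc (-1 : ℝ) 1 \ {t₀}] t₀) (𝓝 y) := by
    intro t₀ ht₀
    have hnb := neBot_punct ht₀
    rw [← cauchy_map_iff_exists_tendsto, Metric.cauchy_iff]
    refine ⟨hnb.map f, fun ε hε => ?_⟩
    obtain ⟨w, hw⟩ := near_limit hf he (η := ε / 3) (by linarith) ht₀
    refine ⟨{y | |y - w| ≤ ε / 3}, hw, fun x hx y hy => ?_⟩
    have hx' : |x - w| ≤ ε / 3 := hx
    have hy' : |y - w| ≤ ε / 3 := hy
    rw [Real.dist_eq]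
    rw [abs_le] at hx' hy'
    rw [abs_lt]
    constructor <;> linarith
  choose! g hg using key
  exact ⟨g, hg⟩

/-- The main theorem for an abstract Euclidean space of dimension at least four. -/
theorem main {n : ℕ} (hn : 4 ≤ n) (b : OrthonormalBasis (Fin n) ℝ E) (hf : PD E f) :
    ∃ (α β : ℝ) (g : ℝ → ℝ), 0 ≤ α ∧ 0 ≤ β ∧ ContinuousOn g (Icc (-1) 1) ∧ PD E g ∧
      ∀ t ∈ Icc (-1 : ℝ) 1,
        f t = α * indicator {-1, 1} 1 t + β * (t * indicator {-1, 1} 1 t) + g t := by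
  have he : ∀ i j : Fin 4, ⟪b (Fin.castLE hn i), b (Fin.castLE hn j)⟫ =
      if i = j then (1 : ℝ) else 0 := by
    intro i j
    rw [orthonormal_iff_ite.1 b.orthonormal]
    simp only [Fin.castLE_inj]
  obtain ⟨g, hg⟩ := exists_PL hf he
  exact main_of_limits (by omega) b hf hg

end bound

end SphEl41
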