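import Pool.Agent.LibSphEl41.Basic

/-!
If the punctured limits of a positive definite function exist at all points of `[-1, 1]`, then the
function is a continuous positive definite function plus the two obvious singular terms.
-/

open scoped RealInnerProductSpace
open Set Filter Topology

namespace SphEl41

/-! ### punctured limits -/

/-- `g` is the punctured limit of `f` in `[-1, 1]`. -/
def PL (f g : ℝ → ℝ) : Prop :=
  ∀ t ∈ Icc (-1 : ℝ) 1, Tendsto f (𝓝[Icc (-1) 1 \ {t}] t) (𝓝 (g t))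

theorem neBot_punct {t : ℝ} (ht : t ∈ Icc (-1 : ℝ) 1) : (𝓝[Icc (-1 : ℝ) 1 \ {t}] t).NeBot := by
  rw [← mem_closure_iff_nhdsWithin_neBot, Metric.mem_closure_iff]
  intro ε hε
  have hm : 0 < min ε 1 := by positivity
  have h1 := min_le_left ε 1
  have h2 := min_le_right ε 1
  rcases le_total t 0 with h | h
  · refine ⟨t + min ε 1 / 2, ⟨⟨by linarith [ht.1], by linarith⟩, ?_⟩, ?_⟩
    · simp only [mem_singleton_iff]
      linarith
    · rw [Real.dist_eq, sub_add_cancel_left, abs_neg, abs_of_pos (by positivity)]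
      linarith
  · refine ⟨t - min ε 1 / 2, ⟨⟨by linarith, by linarith [ht.2]⟩, ?_⟩, ?_⟩
    · simp only [mem_singleton_iff]
      linarith
    · rw [Real.dist_eq, sub_sub_cancel, abs_of_pos (by positivity)]
      linarith

theorem PL.cont {f g : ℝ → ℝ} (h : PL f g) : ContinuousOn g (Icc (-1) 1) := by
  intro t0 ht0
  rw [Metric.continuousWithinAt_iff]
  intro ε hε
  have h1 := h t0 ht0
  rw [Metric.tendsto_nhdsWithin_nhds] at h1
  obtain ⟨δ, hδ, h1⟩ := h1 (ε / 2) (by linarith)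
  refine ⟨δ, hδ, fun t1 ht1 hd => ?_⟩
  rcases eq_or_ne t1 t0 with rfl | hne
  · rw [dist_self]; exact hε
  have hnb := neBot_punct ht1
  have h2 : ∀ᶠ t in 𝓝[Icc (-1 : ℝ) 1 \ {t1}] t1, dist (f t) (g t0) ≤ ε / 2 := by
    have h3 : ∀ᶠ t in 𝓝 t1, dist t t0 < δ ∧ t ≠ t0 := by
      refine Filter.Eventually.and ?_ (eventually_ne_nhds hne)
      have : Tendsto (fun t : ℝ => dist t t0) (𝓝 t1) (𝓝 (dist t1 t0)) :=
        (continuous_id.dist continuous_const).tendsto t1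
      exact this.eventually (gt_mem_nhds hd)
    filter_upwards [nhdsWithin_le_nhds h3, self_mem_nhdsWithin] with t ht htm
    exact (h1 ⟨htm.1, ht.2⟩ ht.1).le
  have h4 : Tendsto (fun t => dist (f t) (g t0)) (𝓝[Icc (-1 : ℝ) 1 \ {t1}] t1)
      (𝓝 (dist (g t1) (g t0))) := (h t1 ht1).dist tendsto_const_nhds
  have h5 := le_of_tendsto h4 h2
  linarith

theorem PL.sub {f g : ℝ → ℝ} (h : PL f g) {t : ℝ} (ht : t ∈ Icc (-1 : ℝ) 1) :
    Tendsto (fun s => f s - g s) (𝓝[Icc (-1 : ℝ) 1 \ {t}] t) (𝓝 0) := by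
  have h1 : Tendsto g (𝓝[Icc (-1 : ℝ) 1 \ {t}] t) (𝓝 (g t)) :=
    (h.cont t ht).mono_left (nhdsWithin_mono _ sdiff_subset)
  have h2 := (h t ht).sub h1
  rwa [sub_self] at h2

/-! ### rotations -/

section rot

variable {E : Type*} [NormedAddCommGroup E] [InnerProductSpace ℝ E]

/-- The rotation by the angle `s` in the plane of `u` and `v`. -/
noncomputable def rot (u v : E) (s : ℝ) (x : E) : E :=
  x + ((Real.cos s - 1) * ⟪u, x⟫ - Real.sin s * ⟪v, x⟫) • u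
    + ((Real.cos s - 1) * ⟪v, x⟫ + Real.sin s * ⟪u, x⟫) • v

theorem rot_inner {u v : E} (hu : ‖u‖ = 1) (hv : ‖v‖ = 1) (huv : ⟪u, v⟫ = 0) (s s' : ℝ)
    (x y : E) : ⟪rot u v s x, rot u v s' y⟫ = ⟪x, y⟫
      + ((⟪u, x⟫ * ⟪u, y⟫ + ⟪v, x⟫ * ⟪v, y⟫) * (Real.cos (s - s') - 1)
      + (⟪u, x⟫ * ⟪v, y⟫ - ⟪v, x⟫ * ⟪u, y⟫) * Real.sin (s - s')) := by
  have huu : ⟪u, u⟫ = 1 := by rw [real_inner_self_eq_norm_sq, hu]; norm_num
  have hvv : ⟪v, v⟫ = 1 := by rw [real_inner_self_eq_norm_sq, hv]; norm_num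
  have hvu : ⟪v, u⟫ = 0 := by rw [real_inner_comm]; exact huv
  have hxu : ⟪x, u⟫ = ⟪u, x⟫ := real_inner_comm _ _
  have hxv : ⟪x, v⟫ = ⟪v, x⟫ := real_inner_comm _ _
  unfold rot
  simp only [inner_add_left, inner_add_right, real_inner_smul_left, real_inner_smul_right,
    huu, hvv, hvu, huv, hxu, hxv]
  rw [Real.cos_sub, Real.sin_sub]
  ring

theorem rot_norm {u v : E} (hu : ‖u‖ = 1) (hv : ‖v‖ = 1) (huv : ⟪u, v⟫ = 0) (s : ℝ)
    {x : E} (hx : ‖x‖ = 1) : ‖rot u v s x‖ = 1 := by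
  have h1 := rot_inner hu hv huv s s x x
  rw [sub_self, Real.cos_zero, Real.sin_zero, sub_self, mul_zero, mul_zero, add_zero, add_zero,
    real_inner_self_eq_norm_sq, real_inner_self_eq_norm_sq, hx] at h1
  exact (pow_left_inj₀ (norm_nonneg _) zero_le_one two_ne_zero).1 (by rw [h1])

theorem trig_ne {A B : ℝ} (h : A ≠ 0 ∨ B ≠ 0) :
    ∀ᶠ σ in 𝓝[≠] (0 : ℝ), A * (Real.cos σ - 1) + B * Real.sin σ ≠ 0 := by
  have e : ∀ σ : ℝ, A * (Real.cos σ - 1) + B * Real.sin σ =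
      2 * Real.sin (σ / 2) * (B * Real.cos (σ / 2) - A * Real.sin (σ / 2)) := by
    intro σ
    have h1 : Real.sin σ = 2 * Real.sin (σ / 2) * Real.cos (σ / 2) := by
      rw [← Real.sin_two_mul]; congr 1; ring
    have h2 : Real.cos σ = 1 - 2 * Real.sin (σ / 2) ^ 2 := by
      have h3 := Real.cos_two_mul (σ / 2)
      rw [show 2 * (σ / 2) = σ by ring] at h3
      have h4 := Real.sin_sq_add_cos_sq (σ / 2)
      rw [h3]; linarith
    rw [h1, h2]; ring
  have hsin : ∀ᶠ σ in 𝓝[≠] (0 : ℝ), Real.sin (σ / 2) ≠ 0 := by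
    rw [eventually_nhdsWithin_iff, Metric.eventually_nhds_iff]
    refine ⟨Real.pi, Real.pi_pos, fun σ hσ hne => ?_⟩
    rw [Real.dist_0_eq_abs, abs_lt] at hσ
    have hne' : σ ≠ 0 := hne
    rcases lt_or_gt_of_ne hne' with h0 | h0
    · exact (Real.sin_neg_of_neg_of_neg_pi_lt (by linarith) (by linarith)).ne
    · exact (Real.sin_pos_of_pos_of_lt_pi (by linarith) (by linarith)).ne'
  by_cases hB : B = 0
  · have hA : A ≠ 0 := by
      rcases h with h | h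
      · exact h
      · exact absurd hB h
    filter_upwards [hsin] with σ hσ
    rw [e, hB, zero_mul, zero_sub]
    exact mul_ne_zero (mul_ne_zero two_ne_zero hσ) (neg_ne_zero.2 (mul_ne_zero hA hσ))
  · have hcont : Tendsto (fun σ : ℝ => B * Real.cos (σ / 2) - A * Real.sin (σ / 2)) (𝓝 0)
        (𝓝 (B * Real.cos (0 / 2) - A * Real.sin (0 / 2))) := by
      have : Continuous fun σ : ℝ => B * Real.cos (σ / 2) - A * Real.sin (σ / 2) := by fun_prop
      exact this.tendsto 0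
    rw [zero_div, Real.cos_zero, Real.sin_zero, mul_one, mul_zero, sub_zero] at hcont
    filter_upwards [hsin, nhdsWithin_le_nhds (hcont.eventually_ne hB)] with σ hσ hσ'
    rw [e]
    exact mul_ne_zero (mul_ne_zero two_ne_zero hσ) hσ'

theorem exists_generic [Nontrivial E] {m : ℕ} (x : Fin m → E) (hx : ∀ i, x i ≠ 0) :
    ∃ u : E, ‖u‖ = 1 ∧ ∀ i, ⟪u, x i⟫ ≠ 0 := by
  classical
  by_contra hcon
  push Not at hcon
  obtain ⟨e, he⟩ := exists_ne (0 : E)
  let p : Option (Fin m) → Submodule ℝ E := fun o => match o with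
    | none => ⊥
    | some i => (ℝ ∙ x i)ᗮ
  have hcov : ⋃ i, (p i : Set E) = Set.univ := by
    rw [Set.eq_univ_iff_forall]
    intro w
    rw [Set.mem_iUnion]
    by_cases hw : w = 0
    · exact ⟨none, by simp [p, hw]⟩
    · have hw' : ‖w‖ ≠ 0 := norm_ne_zero_iff.2 hw
      obtain ⟨i, hi⟩ := hcon (‖w‖⁻¹ • w) (by
        rw [norm_smul, norm_inv, norm_norm, inv_mul_cancel₀ hw'])
      rw [real_inner_smul_left, mul_eq_zero, or_iff_right (inv_ne_zero hw')] at hi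
      refine ⟨some i, ?_⟩
      change w ∈ (ℝ ∙ x i)ᗮ
      rw [Submodule.mem_orthogonal_singleton_iff_inner_left]
      exact hi
  obtain ⟨o, ho⟩ := Subspace.exists_eq_top_of_iUnion_eq_univ hcov
  match o with
  | none =>
    have : e ∈ (⊥ : Submodule ℝ E) := by
      change p none = ⊤ at ho
      change e ∈ p none
      rw [ho]; trivial
    exact he ((Submodule.mem_bot ℝ).1 this)
  | some i =>
    have : x i ∈ (ℝ ∙ x i)ᗮ := by
      change p (some i) = ⊤ at ho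
      change x i ∈ p (some i)
      rw [ho]; trivial
    rw [Submodule.mem_orthogonal_singleton_iff_inner_left, inner_self_eq_zero] at this
    exact hx i this

end rot

/-! ### the limit function is positive definite -/

section quad

variable {E : Type*} [NormedAddCommGroup E] [InnerProductSpace ℝ E]

theorem inner_mem_Icc {x z : E} (hx : ‖x‖ = 1) (hz : ‖z‖ = 1) : ⟪x, z⟫ ∈ Icc (-1 : ℝ) 1 := by
  have := abs_real_inner_le_norm x z
  rw [hx, hz, one_mul, abs_le] at this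
  exact this

theorem quad_limits [Nontrivial E] (hperp : ∀ x : E, ∃ z : E, ‖z‖ = 1 ∧ ⟪x, z⟫ = 0)
    {f g : ℝ → ℝ} (hf : PD E f) (hg : PL f g) (m : ℕ) (x : Fin m → E) (c : Fin m → ℝ)
    (hx : ∀ i, ‖x i‖ = 1) :
    0 ≤ ∑ i, ∑ j, c i * c j * g ⟪x i, x j⟫ ∧
      ∑ i, ∑ j, c i * c j * g ⟪x i, x j⟫ ≤ ∑ i, ∑ j, c i * c j * f ⟪x i, x j⟫ := by
  obtain ⟨u, hu, hux⟩ := exists_generic x (fun i => by
    intro h; have := hx i; rw [h, norm_zero] at this; norm_num at this)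
  obtain ⟨v, hv, huv⟩ := hperp u
  set D : Fin m → Fin m → ℝ → ℝ := fun i j σ =>
    (⟪u, x i⟫ * ⟪u, x j⟫ + ⟪v, x i⟫ * ⟪v, x j⟫) * (Real.cos σ - 1)
      + (⟪u, x i⟫ * ⟪v, x j⟫ - ⟪v, x i⟫ * ⟪u, x j⟫) * Real.sin σ with hD
  set φ : ℝ → ℝ := fun σ => ∑ i, ∑ j, c i * c j * f (⟪x i, x j⟫ + D i j σ) with hφ
  set V : ℝ → Sph41.Hil (kerOf hf) := fun s => ∑ i, c i • rv hf (rot u v s (x i)) with hVdef
  have hV : ∀ s s', ⟪V s, V s'⟫ = φ (s - s') := by
    intro s s'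
    rw [hVdef, hφ]
    beta_reduce
    rw [sum_inner]
    refine Finset.sum_congr rfl fun i _ => ?_
    rw [inner_sum]
    refine Finset.sum_congr rfl fun j _ => ?_
    rw [real_inner_smul_left, real_inner_smul_right, rv_inner hf (rot_norm hu hv huv s (hx i)) (rot_norm hu hv huv s' (hx j)),
      rot_inner hu hv huv]
    ring
  have hq : Tendsto φ (𝓝[≠] 0) (𝓝 (∑ i, ∑ j, c i * c j * g ⟪x i, x j⟫)) := by
    rw [hφ]
    refine tendsto_finsetSum _ fun i _ => tendsto_finsetSum _ fun j _ => ?_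
    refine Tendsto.const_mul _ ?_
    refine (hg _ (inner_mem_Icc (hx i) (hx j))).comp ?_
    rw [tendsto_nhdsWithin_iff]
    constructor
    · have h1 : Continuous fun σ => ⟪x i, x j⟫ + D i j σ := by
        rw [hD]; fun_prop
      have h2 := h1.tendsto 0
      have h3 : ⟪x i, x j⟫ + D i j 0 = ⟪x i, x j⟫ := by
        rw [hD]; simp
      rw [h3] at h2
      exact h2.mono_left nhdsWithin_le_nhds
    · have h1 : (⟪u, x i⟫ * ⟪u, x j⟫ + ⟪v, x i⟫ * ⟪v, x j⟫ ≠ 0) ∨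
          (⟪u, x i⟫ * ⟪v, x j⟫ - ⟪v, x i⟫ * ⟪u, x j⟫ ≠ 0) := by
        by_contra hcon
        push Not at hcon
        have h2 : (⟪u, x i⟫ ^ 2 + ⟪v, x i⟫ ^ 2) * (⟪u, x j⟫ ^ 2 + ⟪v, x j⟫ ^ 2) = 0 := by
          have e : (⟪u, x i⟫ ^ 2 + ⟪v, x i⟫ ^ 2) * (⟪u, x j⟫ ^ 2 + ⟪v, x j⟫ ^ 2) =
            (⟪u, x i⟫ * ⟪u, x j⟫ + ⟪v, x i⟫ * ⟪v, x j⟫) ^ 2
            + (⟪u, x i⟫ * ⟪v, x j⟫ - ⟪v, x i⟫ * ⟪u, x j⟫) ^ 2 := by ring
          rw [e, hcon.1, hcon.2]; norm_num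
        have h3 : 0 < ⟪u, x i⟫ ^ 2 + ⟪v, x i⟫ ^ 2 := by
          have := hux i
          positivity
        have h4 : 0 < ⟪u, x j⟫ ^ 2 + ⟪v, x j⟫ ^ 2 := by
          have := hux j
          positivity
        exact (mul_pos h3 h4).ne' h2
      filter_upwards [trig_ne h1] with σ hσ
      refine ⟨?_, ?_⟩
      · have h2 := inner_mem_Icc (rot_norm hu hv huv σ (hx i)) (rot_norm hu hv huv 0 (hx j))
        rw [rot_inner hu hv huv, sub_zero] at h2
        exact h2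
      · simp only [mem_singleton_iff]
        intro h2
        apply hσ
        have h3 : D i j σ = 0 := by linarith
        exact h3
  have h0 : φ 0 = ∑ i, ∑ j, c i * c j * f ⟪x i, x j⟫ := by
    rw [hφ, hD]
    simp
  exact ⟨limit_nonneg hV hq, h0 ▸ limit_le hV hq⟩

theorem PL.pd [Nontrivial E] (hperp : ∀ x : E, ∃ z : E, ‖z‖ = 1 ∧ ⟪x, z⟫ = 0)
    {f g : ℝ → ℝ} (hf : PD E f) (hg : PL f g) : PD E g :=
  PD_of_quad fun m x c hx => (quad_limits hperp hf hg m x c hx).1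

theorem PL.pd_sub [Nontrivial E] (hperp : ∀ x : E, ∃ z : E, ‖z‖ = 1 ∧ ⟪x, z⟫ = 0)
    {f g : ℝ → ℝ} (hf : PD E f) (hg : PL f g) : PD E (fun t => f t - g t) := by
  refine PD_of_quad fun m x c hx => ?_
  have h := (quad_limits hperp hf hg m x c hx).2
  have e : ∑ i, ∑ j, c i * c j * (f ⟪x i, x j⟫ - g ⟪x i, x j⟫) =
      (∑ i, ∑ j, c i * c j * f ⟪x i, x j⟫) - ∑ i, ∑ j, c i * c j * g ⟪x i, x j⟫ := by
    rw [← Finset.sum_sub_distrib]
    refine Finset.sum_congr rfl fun i _ => ?_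
    rw [← Finset.sum_sub_distrib]
    refine Finset.sum_congr rfl fun j _ => ?_
    ring
  rw [e]
  linarith

/-- A positive definite function with punctured limit `0` at `1` vanishes in `(-1, 1)`. -/
theorem eq_zero_of_tendsto {h : ℝ → ℝ} (hh : PD E h) {e₁ e₂ e₃ : E} (h1 : ‖e₁‖ = 1)
    (h2 : ‖e₂‖ = 1) (h3 : ‖e₃‖ = 1) (h12 : ⟪e₁, e₂⟫ = 0) (h13 : ⟪e₁, e₃⟫ = 0)
    (h23 : ⟪e₂, e₃⟫ = 0) (hlim : Tendsto h (𝓝[Icc (-1 : ℝ) 1 \ {1}] 1) (𝓝 0)) {t : ℝ}
    (ht : t ∈ Ioo (-1 : ℝ) 1) : h t = 0 := by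
  have h11 : ⟪e₁, e₁⟫ = 1 := by rw [real_inner_self_eq_norm_sq, h1]; norm_num
  have h22 : ⟪e₂, e₂⟫ = 1 := by rw [real_inner_self_eq_norm_sq, h2]; norm_num
  have h33 : ⟪e₃, e₃⟫ = 1 := by rw [real_inner_self_eq_norm_sq, h3]; norm_num
  have h21 : ⟪e₂, e₁⟫ = 0 := by rw [real_inner_comm]; exact h12
  have h31 : ⟪e₃, e₁⟫ = 0 := by rw [real_inner_comm]; exact h13
  have h32 : ⟪e₃, e₂⟫ = 0 := by rw [real_inner_comm]; exact h23
  obtain ⟨r, hr0, hr⟩ : ∃ r : ℝ, 0 < r ∧ r ^ 2 = 1 - t ^ 2 := by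
    have : 0 < 1 - t ^ 2 := by nlinarith [ht.1, ht.2]
    exact ⟨√(1 - t ^ 2), Real.sqrt_pos.2 this, Real.sq_sqrt this.le⟩
  set y : ℝ → E := fun s => t • e₁ + (r * Real.cos s) • e₂ + (r * Real.sin s) • e₃ with hy
  have hyy : ∀ s s', ⟪y s, y s'⟫ = t ^ 2 + r ^ 2 * Real.cos (s - s') := by
    intro s s'
    rw [hy]
    simp only [inner_add_left, inner_add_right, real_inner_smul_left, real_inner_smul_right,
      h11, h22, h33, h12, h13, h23, h21, h31, h32]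
    rw [Real.cos_sub]
    ring
  have hyn : ∀ s, ‖y s‖ = 1 := by
    intro s
    have h4 := hyy s s
    rw [sub_self, Real.cos_zero, hr, real_inner_self_eq_norm_sq] at h4
    exact (pow_left_inj₀ (norm_nonneg _) zero_le_one two_ne_zero).1 (by rw [h4]; ring)
  have hye : ∀ s, ⟪y s, e₁⟫ = t := by
    intro s
    rw [hy]
    simp only [inner_add_left, real_inner_smul_left, h11, h21, h31]
    ring
  refine const_eq_zero (V := fun s => rv hh (y s)) (z := rv hh e₁)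
    (φ := fun σ => h (t ^ 2 + r ^ 2 * Real.cos σ)) ?_ ?_ ?_
  · intro s s'
    rw [rv_inner hh (hyn s) (hyn s'), hyy]
  · refine hlim.comp ?_
    rw [tendsto_nhdsWithin_iff]
    constructor
    · have h4 : Continuous fun σ : ℝ => t ^ 2 + r ^ 2 * Real.cos σ := by fun_prop
      have h5 := h4.tendsto 0
      have h6 : t ^ 2 + r ^ 2 * Real.cos 0 = 1 := by rw [Real.cos_zero, hr]; ring
      rw [h6] at h5
      exact h5.mono_left nhdsWithin_le_nhds
    · have h4 := trig_ne (A := 1) (B := 0) (Or.inl one_ne_zero)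
      filter_upwards [h4] with σ hσ
      refine ⟨?_, ?_⟩
      · have h5 := inner_mem_Icc (hyn σ) (hyn 0)
        rw [hyy, sub_zero] at h5
        exact h5
      · simp only [mem_singleton_iff]
        intro h5
        apply hσ
        have h6 : r ^ 2 * (Real.cos σ - 1) = 0 := by rw [hr] at h5 ⊢; linarith
        rw [one_mul, zero_mul, add_zero]
        exact (mul_eq_zero.1 h6).resolve_left (by positivity)
  · intro s
    rw [rv_inner hh (hyn s) h1, hye]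

/-- The conclusion from the existence of the punctured limits. -/
theorem main_of_limits {n : ℕ} (hn : 3 ≤ n) (b : OrthonormalBasis (Fin n) ℝ E) {f g : ℝ → ℝ}
    (hf : PD E f) (hg : PL f g) :
    ∃ (α β : ℝ) (g : ℝ → ℝ), 0 ≤ α ∧ 0 ≤ β ∧ ContinuousOn g (Icc (-1) 1) ∧ PD E g ∧
      ∀ t ∈ Icc (-1 : ℝ) 1,
        f t = α * indicator {-1, 1} 1 t + β * (t * indicator {-1, 1} 1 t) + g t := by
  have hperp : ∀ x : E, ∃ z : E, ‖z‖ = 1 ∧ ⟪x, z⟫ = 0 := by
    intro x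
    set e₁ := b ⟨0, by omega⟩ with he1
    set e₂ := b ⟨1, by omega⟩ with he2
    have h1 : ‖e₁‖ = 1 := b.norm_eq_one _
    have h2 : ‖e₂‖ = 1 := b.norm_eq_one _
    have h12 : ⟪e₁, e₂⟫ = 0 := b.orthonormal.2 (by simp [Fin.ext_iff])
    by_cases hx : ⟪x, e₁⟫ = 0
    · exact ⟨e₁, h1, hx⟩
    · set w := ⟪x, e₂⟫ • e₁ - ⟪x, e₁⟫ • e₂ with hw
      have hw0 : w ≠ 0 := by
        intro h
        have h3 : ⟪w, e₂⟫ = 0 := by rw [h, inner_zero_left]
        rw [hw, inner_sub_left, real_inner_smul_left, real_inner_smul_left, h12,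
          real_inner_self_eq_norm_sq, h2] at h3
        apply hx
        linarith
      have hw1 : ‖w‖ ≠ 0 := norm_ne_zero_iff.2 hw0
      refine ⟨‖w‖⁻¹ • w, by rw [norm_smul, norm_inv, norm_norm, inv_mul_cancel₀ hw1], ?_⟩
      rw [real_inner_smul_right, hw, inner_sub_right, real_inner_smul_right,
        real_inner_smul_right]
      ring
  have hnt : Nontrivial E :=
    ⟨⟨b ⟨0, by omega⟩, 0, fun h => by
      have := b.norm_eq_one ⟨0, by omega⟩
      rw [h, norm_zero] at this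
      norm_num at this⟩⟩
  have hh := hg.pd_sub hperp hf
  obtain ⟨h, hhdef⟩ : ∃ h : ℝ → ℝ, h = fun t => f t - g t := ⟨_, rfl⟩
  rw [← hhdef] at hh
  set o := b ⟨0, by omega⟩ with ho
  have hon : ‖o‖ = 1 := b.norm_eq_one _
  have hoo : ⟪o, o⟫ = 1 := by rw [real_inner_self_eq_norm_sq, hon]; norm_num
  have hlim := hg.sub (t := 1) (by norm_num)
  have hz : ∀ t ∈ Ioo (-1 : ℝ) 1, h t = 0 := fun t ht =>
    eq_zero_of_tendsto hh (b.norm_eq_one ⟨0, by omega⟩) (b.norm_eq_one ⟨1, by omega⟩)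
      (b.norm_eq_one ⟨2, by omega⟩) (b.orthonormal.2 (by simp [Fin.ext_iff]))
      (b.orthonormal.2 (by simp [Fin.ext_iff])) (b.orthonormal.2 (by simp [Fin.ext_iff]))
      (by rw [hhdef]; exact hlim) ht
  have h1 : ‖rv hh o‖ ^ 2 = h 1 := by
    rw [← real_inner_self_eq_norm_sq, rv_inner hh hon hon, hoo]
  have h2 : ‖rv hh (-o)‖ ^ 2 = h 1 := by
    rw [← real_inner_self_eq_norm_sq, rv_inner hh (by rwa [norm_neg]) (by rwa [norm_neg]),
      inner_neg_neg, hoo]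
  have h3 : |h (-1)| ≤ h 1 := by
    have h4 := abs_real_inner_le_norm (rv hh o) (rv hh (-o))
    rw [rv_inner hh hon (by rwa [norm_neg]), inner_neg_right, hoo] at h4
    have h5 : ‖rv hh o‖ * ‖rv hh (-o)‖ = h 1 := by
      have h6 : ‖rv hh (-o)‖ = ‖rv hh o‖ :=
        (pow_left_inj₀ (norm_nonneg _) (norm_nonneg _) two_ne_zero).1 (by rw [h1, h2])
      rw [h6, ← sq, h1]
    rwa [h5] at h4
  rw [abs_le] at h3
  refine ⟨(h 1 + h (-1)) / 2, (h 1 - h (-1)) / 2, g, by linarith, by linarith, hg.cont,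
    hg.pd hperp hf, ?_⟩
  intro t ht
  have hft : f t = h t + g t := by rw [hhdef]; ring
  rw [hft]
  by_cases ht1 : t = 1
  · rw [ht1]
    simp
    ring
  · by_cases ht2 : t = -1
    · rw [ht2]
      simp
      ring
    · have h4 : t ∉ ({-1, 1} : Set ℝ) := by
        simp only [mem_insert_iff, mem_singleton_iff, not_or]
        exact ⟨ht2, ht1⟩
      rw [indicator_of_notMem h4,
        hz t ⟨lt_of_le_of_ne ht.1 (Ne.symm ht2), lt_of_le_of_ne ht.2 ht1⟩]
      ring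

end quad

end SphEl41
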